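import Mathlib

set_option autoImplicit false

/-!
# Divisibility of the self-convolution of `binom(6k,3k) binom(3k,k)` by `8(2n-1) binom(3n,n)`
-/

namespace Pool.Agent.K3h12.CB

open Finset Nat

/-! ### floor functions -/

lemma fval (m r : ℕ) (hr : r < m) :
    (6 * r / m = 3 * r / m + 2 * r / m ∧ 6 * r < m) ∨
    (6 * r / m = 3 * r / m + 2 * r / m + 1 ∧ m ≤ 6 * r ∧ 6 * r < 5 * m) ∨
    (6 * r / m = 3 * r / m + 2 * r / m + 2 ∧ 5 * m ≤ 6 * r) := by
  have h6 : 6 * r < m ∨ (m ≤ 6 * r ∧ 6 * r < 2 * m) ∨ (2 * m ≤ 6 * r ∧ 6 * r < 3 * m) ∨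
      (3 * m ≤ 6 * r ∧ 6 * r < 4 * m) ∨ (4 * m ≤ 6 * r ∧ 6 * r < 5 * m) ∨
      (5 * m ≤ 6 * r ∧ 6 * r < 6 * m) := by omega
  rcases h6 with h | ⟨h, h'⟩ | ⟨h, h'⟩ | ⟨h, h'⟩ | ⟨h, h'⟩ | ⟨h, h'⟩
  · left
    rw [Nat.div_eq_of_lt_le (k := 0) (n := m) (m := 6 * r) (by omega) (by omega),
      Nat.div_eq_of_lt_le (k := 0) (n := m) (m := 3 * r) (by omega) (by omega),
      Nat.div_eq_of_lt_le (k := 0) (n := m) (m := 2 * r) (by omega) (by omega)]
    omega
  · right; left
    rw [Nat.div_eq_of_lt_le (k := 1) (n := m) (m := 6 * r) (by omega) (by omega),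
      Nat.div_eq_of_lt_le (k := 0) (n := m) (m := 3 * r) (by omega) (by omega),
      Nat.div_eq_of_lt_le (k := 0) (n := m) (m := 2 * r) (by omega) (by omega)]
    omega
  · right; left
    rw [Nat.div_eq_of_lt_le (k := 2) (n := m) (m := 6 * r) (by omega) (by omega),
      Nat.div_eq_of_lt_le (k := 1) (n := m) (m := 3 * r) (by omega) (by omega),
      Nat.div_eq_of_lt_le (k := 0) (n := m) (m := 2 * r) (by omega) (by omega)]
    omega
  · right; left
    rw [Nat.div_eq_of_lt_le (k := 3) (n := m) (m := 6 * r) (by omega) (by omega),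
      Nat.div_eq_of_lt_le (k := 1) (n := m) (m := 3 * r) (by omega) (by omega),
      Nat.div_eq_of_lt_le (k := 1) (n := m) (m := 2 * r) (by omega) (by omega)]
    omega
  · right; left
    rw [Nat.div_eq_of_lt_le (k := 4) (n := m) (m := 6 * r) (by omega) (by omega),
      Nat.div_eq_of_lt_le (k := 2) (n := m) (m := 3 * r) (by omega) (by omega),
      Nat.div_eq_of_lt_le (k := 1) (n := m) (m := 2 * r) (by omega) (by omega)]
    omega
  · right; right
    rw [Nat.div_eq_of_lt_le (k := 5) (n := m) (m := 6 * r) (by omega) (by omega),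
      Nat.div_eq_of_lt_le (k := 2) (n := m) (m := 3 * r) (by omega) (by omega),
      Nat.div_eq_of_lt_le (k := 1) (n := m) (m := 2 * r) (by omega) (by omega)]
    omega

lemma gval (m r : ℕ) (hr : r < m) :
    (3 * r / m = 2 * r / m ∧ 3 * r < m) ∨
    (3 * r / m = 2 * r / m + 1 ∧ m ≤ 3 * r ∧ 2 * r < m) ∨
    (3 * r / m = 2 * r / m ∧ m ≤ 2 * r ∧ 3 * r < 2 * m) ∨
    (3 * r / m = 2 * r / m + 1 ∧ 2 * m ≤ 3 * r) := by
  have h6 : 3 * r < m ∨ (m ≤ 3 * r ∧ 2 * r < m) ∨ (m ≤ 2 * r ∧ 3 * r < 2 * m) ∨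
      (2 * m ≤ 3 * r) := by omega
  rcases h6 with h | ⟨h, h'⟩ | ⟨h, h'⟩ | h
  · left
    rw [Nat.div_eq_of_lt_le (k := 0) (n := m) (m := 3 * r) (by omega) (by omega),
      Nat.div_eq_of_lt_le (k := 0) (n := m) (m := 2 * r) (by omega) (by omega)]
    omega
  · right; left
    rw [Nat.div_eq_of_lt_le (k := 1) (n := m) (m := 3 * r) (by omega) (by omega),
      Nat.div_eq_of_lt_le (k := 0) (n := m) (m := 2 * r) (by omega) (by omega)]
    omega
  · right; right; left
    rw [Nat.div_eq_of_lt_le (k := 1) (n := m) (m := 3 * r) (by omega) (by omega),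
      Nat.div_eq_of_lt_le (k := 1) (n := m) (m := 2 * r) (by omega) (by omega)]
    omega
  · right; right; right
    rw [Nat.div_eq_of_lt_le (k := 2) (n := m) (m := 3 * r) (by omega) (by omega),
      Nat.div_eq_of_lt_le (k := 1) (n := m) (m := 2 * r) (by omega) (by omega)]
    omega

/-- `(c x) / m` in terms of the quotient and the remainder of `x`. -/
lemma mul_div_split (c x m : ℕ) (hm : 0 < m) :
    c * x / m = c * (x / m) + c * (x % m) / m := by
  conv_lhs => rw [← Nat.div_add_mod x m]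
  rw [mul_add, ← mul_assoc, mul_comm c m, mul_assoc, Nat.mul_add_div hm]

/-- remainder of a sum -/
lemma mod_add_cases (j k m : ℕ) (hm : 0 < m) :
    ((j + k) % m = j % m + k % m ∧ j % m + k % m < m ∧ (j + k) / m = j / m + k / m) ∨
    ((j + k) % m + m = j % m + k % m ∧ (j + k) / m = j / m + k / m + 1) := by
  have h1 := Nat.mod_lt j hm
  have h2 := Nat.mod_lt k hm
  have hj := Nat.div_add_mod j m
  have hk := Nat.div_add_mod k m
  by_cases h : j % m + k % m < m
  · left
    have e : (j + k) / m = j / m + k / m := Nat.add_div_eq_of_add_mod_lt h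
    refine ⟨?_, h, e⟩
    rw [Nat.add_mod, Nat.mod_eq_of_lt h]
  · right
    push Not at h
    have e : (j + k) / m = j / m + k / m + 1 := Nat.add_div_eq_of_le_mod_add_mod h hm
    refine ⟨?_, e⟩
    exact Nat.add_mod_add_of_le_add_mod h

/-- if `m` divides `2 n - 1` then the remainder of `n` is `(m + 1) / 2`. -/
lemma rem_of_dvd (n m : ℕ) (hn : 1 ≤ n) (hm : 2 ≤ m) (h : m ∣ 2 * n - 1) :
    2 * (n % m) = m + 1 := by
  obtain ⟨c, hc⟩ := h
  have h1 := Nat.mod_lt n (show 0 < m by omega)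
  have h2 := Nat.div_add_mod n m
  set q := n / m
  set r := n % m
  have h3 : 2 * (m * q) + 2 * r = m * c + 1 := by omega
  have h4 : c = 2 * q ∨ c = 2 * q + 1 ∨ c + 1 ≤ 2 * q ∨ 2 * q + 2 ≤ c := by omega
  rcases h4 with h | h | h | h
  · subst h
    have : m * (2 * q) = 2 * (m * q) := by ring
    omega
  · subst h
    have : m * (2 * q + 1) = 2 * (m * q) + m := by ring
    omega
  · have h5 : m * (c + 1) ≤ m * (2 * q) := Nat.mul_le_mul_left m h
    have : m * (2 * q) = 2 * (m * q) := by ring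
    rw [mul_add, mul_one] at h5
    omega
  · have h5 : m * (2 * q + 2) ≤ m * c := Nat.mul_le_mul_left m h
    have : m * (2 * q + 2) = 2 * (m * q) + 2 * m := by ring
    omega

/-- The local defect. -/
def fl (m x : ℕ) : ℤ :=
  (6 * x / m : ℕ) - (3 * x / m : ℕ) - (2 * x / m : ℕ) - (x / m : ℕ)

def gl (m x : ℕ) : ℤ := (3 * x / m : ℕ) - (2 * x / m : ℕ) - (x / m : ℕ)

lemma fl_eq (m x : ℕ) (hm : 0 < m) :
    fl m x = (6 * (x % m) / m : ℕ) - (3 * (x % m) / m : ℕ) - (2 * (x % m) / m : ℕ) := by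
  unfold fl
  rw [mul_div_split 6 x m hm, mul_div_split 3 x m hm, mul_div_split 2 x m hm]
  push_cast
  ring

lemma gl_eq (m x : ℕ) (hm : 0 < m) :
    gl m x = (3 * (x % m) / m : ℕ) - (2 * (x % m) / m : ℕ) := by
  unfold gl
  rw [mul_div_split 3 x m hm, mul_div_split 2 x m hm]
  push_cast
  ring

/-- For `m ≥ 5` the local defect is nonnegative. -/
lemma local_five (m j k : ℕ) (hm : 5 ≤ m) (hn : 1 ≤ j + k) :
    gl m (j + k) + (if m ∣ 2 * (j + k) - 1 then 1 else 0) ≤ fl m j + fl m k := by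
  have hm0 : 0 < m := by omega
  rw [fl_eq m j hm0, fl_eq m k hm0, gl_eq m _ hm0]
  have h1 := Nat.mod_lt j hm0
  have h2 := Nat.mod_lt k hm0
  have h3 := Nat.mod_lt (j + k) hm0
  have hd : (m ∣ 2 * (j + k) - 1) → 2 * ((j + k) % m) = m + 1 :=
    fun h => rem_of_dvd _ _ hn (by omega) h
  have hs := mod_add_cases j k m hm0
  have hfj := fval m _ h1
  have hfk := fval m _ h2
  have hg := gval m _ h3
  generalize (j + k) % m = rn at *
  generalize j % m = rj at *
  generalize k % m = rk at *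
  generalize 6 * rj / m = a1 at *
  generalize 3 * rj / m = a2 at *
  generalize 2 * rj / m = a3 at *
  generalize 6 * rk / m = b1 at *
  generalize 3 * rk / m = b2 at *
  generalize 2 * rk / m = b3 at *
  generalize 3 * rn / m = c1 at *
  generalize 2 * rn / m = c2 at *
  split_ifs with h
  · have hd' := hd h
    omega
  · clear hd
    omega

/-- `{j, k}` is `{0, (M + 1) / 2}` modulo `M`. -/
def Chi (M j k : ℕ) : Prop :=
  (j % M = 0 ∧ 2 * (k % M) = M + 1) ∨ (k % M = 0 ∧ 2 * (j % M) = M + 1)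

instance (M j k : ℕ) : Decidable (Chi M j k) := by unfold Chi; infer_instance

lemma local_three (j k : ℕ) (hn : 1 ≤ j + k) :
    gl 3 (j + k) + (if 3 ∣ 2 * (j + k) - 1 then 1 else 0) ≤
      fl 3 j + fl 3 k + (if Chi 3 j k then 1 else 0) := by
  have key : ∀ d x : ℕ, (d = 0 ∨ (d = 1 ∧ 3 ∣ 2 * (j + k) - 1)) ∧
      ((x = 0 ∧ ¬ Chi 3 j k) ∨ x = 1) →
      gl 3 (j + k) + (d : ℤ) ≤ fl 3 j + fl 3 k + (x : ℤ) := by
    intro d x h
    unfold Chi at h
    unfold gl fl
    obtain ⟨a, r, hr, ha⟩ : ∃ a r : ℕ, r < 3 ∧ j = 3 * a + r :=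
      ⟨j / 3, j % 3, Nat.mod_lt _ (by norm_num), (Nat.div_add_mod j 3).symm⟩
    obtain ⟨b, t, ht, hb⟩ : ∃ b t : ℕ, t < 3 ∧ k = 3 * b + t :=
      ⟨k / 3, k % 3, Nat.mod_lt _ (by norm_num), (Nat.div_add_mod k 3).symm⟩
    subst ha hb
    interval_cases r <;> interval_cases t <;> omega
  by_cases h1 : 3 ∣ 2 * (j + k) - 1 <;> by_cases h2 : Chi 3 j k
  · rw [if_pos h1, if_pos h2]
    exact_mod_cast key 1 1 ⟨Or.inr ⟨rfl, h1⟩, Or.inr rfl⟩
  · rw [if_pos h1, if_neg h2]
    exact_mod_cast key 1 0 ⟨Or.inr ⟨rfl, h1⟩, Or.inl ⟨rfl, h2⟩⟩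
  · rw [if_neg h1, if_pos h2]
    exact_mod_cast key 0 1 ⟨Or.inl rfl, Or.inr rfl⟩
  · rw [if_neg h1, if_neg h2]
    exact_mod_cast key 0 0 ⟨Or.inl rfl, Or.inl ⟨rfl, h2⟩⟩

lemma mod_cases (M j : ℕ) (hM : 0 < M) :
    j % M < M ∧ (j % (3 * M) = j % M ∨ j % (3 * M) = j % M + M ∨ j % (3 * M) = j % M + 2 * M) := by
  have h0 := Nat.mod_lt j hM
  have h1 : j % (3 * M) % M = j % M := Nat.mod_mod_of_dvd j (Dvd.intro_left 3 rfl)
  have h2 := Nat.mod_lt j (show 0 < 3 * M by omega)
  refine ⟨h0, ?_⟩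
  have h3 := Nat.div_add_mod (j % (3 * M)) M
  rw [h1] at h3
  have h4 : j % (3 * M) / M < 3 := Nat.div_lt_of_lt_mul (by omega)
  generalize j % (3 * M) / M = q at *
  interval_cases q <;> omega

/-- The step from `M` to `3 M`. -/
lemma local_step (M j k : ℕ) (hM : 3 ≤ M) (hn : 1 ≤ j + k) :
    gl (3 * M) (j + k) + (if 3 * M ∣ 2 * (j + k) - 1 then 1 else 0) + (if Chi M j k then 1 else 0) ≤
      fl (3 * M) j + fl (3 * M) k + (if Chi (3 * M) j k then 1 else 0) := by
  have h5 := local_five (3 * M) j k (by omega) hn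
  by_cases hc : Chi M j k
  swap
  · rw [if_neg hc]
    split_ifs at * <;> omega
  by_cases hc' : Chi (3 * M) j k
  · rw [if_pos hc, if_pos hc']
    omega
  rw [if_pos hc, if_neg hc']
  clear h5
  have hm0 : 0 < 3 * M := by omega
  rw [fl_eq (3 * M) j hm0, fl_eq (3 * M) k hm0, gl_eq (3 * M) _ hm0]
  have h1 := Nat.mod_lt j hm0
  have h2 := Nat.mod_lt k hm0
  have h3 := Nat.mod_lt (j + k) hm0
  have hd : (3 * M ∣ 2 * (j + k) - 1) → 2 * ((j + k) % (3 * M)) = 3 * M + 1 :=
    fun h => rem_of_dvd _ _ hn (by omega) h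
  have hs := mod_add_cases j k (3 * M) hm0
  have hfj := fval (3 * M) _ h1
  have hfk := fval (3 * M) _ h2
  have hg := gval (3 * M) _ h3
  have hj := mod_cases M j (by omega)
  have hk := mod_cases M k (by omega)
  unfold Chi at hc hc'
  generalize (j + k) % (3 * M) = rn at *
  generalize j % (3 * M) = rj at *
  generalize k % (3 * M) = rk at *
  generalize j % M = sj at *
  generalize k % M = sk at *
  generalize 6 * rj / (3 * M) = a1 at *
  generalize 3 * rj / (3 * M) = a2 at *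
  generalize 2 * rj / (3 * M) = a3 at *
  generalize 6 * rk / (3 * M) = b1 at *
  generalize 3 * rk / (3 * M) = b2 at *
  generalize 2 * rk / (3 * M) = b3 at *
  generalize 3 * rn / (3 * M) = c1 at *
  generalize 2 * rn / (3 * M) = c2 at *
  obtain ⟨-, hj⟩ := hj
  obtain ⟨-, hk⟩ := hk
  split_ifs with h
  · have hd' := hd h
    clear hd h
    rcases hc with ⟨e1, e2⟩ | ⟨e1, e2⟩ <;> rcases hj with hj | hj | hj <;>
      rcases hk with hk | hk | hk <;> omega
  · clear hd
    rcases hc with ⟨e1, e2⟩ | ⟨e1, e2⟩ <;> rcases hj with hj | hj | hj <;>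
      rcases hk with hk | hk | hk <;> omega

/-! ### valuations -/

/-- `a_k = binom(6k,3k) binom(3k,k)`. -/
def a (k : ℕ) : ℕ := (6 * k).choose (3 * k) * (3 * k).choose k

lemma a_pos (k : ℕ) : 0 < a k :=
  Nat.mul_pos (Nat.choose_pos (by omega)) (Nat.choose_pos (by omega))

lemma a_fact (k : ℕ) : a k * (3 * k)! * (2 * k)! * k ! = (6 * k)! := by
  have h1 := Nat.choose_mul_factorial_mul_factorial (show 3 * k ≤ 6 * k by omega)
  have h2 := Nat.choose_mul_factorial_mul_factorial (show k ≤ 3 * k by omega)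
  rw [show 6 * k - 3 * k = 3 * k by omega] at h1
  rw [show 3 * k - k = 2 * k by omega] at h2
  rw [← h1]
  unfold a
  conv_rhs => rw [mul_assoc]; arg 2; arg 1; rw [← h2]
  ring

lemma val_fact (p : ℕ) [hp : Fact p.Prime] (x b : ℕ) (hx : x < p ^ b) (hb : 0 < b) :
    padicValNat p x ! = ∑ i ∈ Finset.Ico 1 b, x / p ^ i := by
  apply padicValNat_factorial
  rcases Nat.eq_zero_or_pos x with h | h
  · subst h; simpa using hb
  · exact Nat.log_lt_of_lt_pow (by omega) hx

lemma val_a (p : ℕ) [hp : Fact p.Prime] (k b : ℕ) (hx : 6 * k < p ^ b) (hb : 0 < b) :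
    (padicValNat p (a k) : ℤ) = ∑ i ∈ Finset.Ico 1 b, fl (p ^ i) k := by
  have h := congrArg (padicValNat p) (a_fact k)
  have ha := (a_pos k).ne'
  have f1 := Nat.factorial_ne_zero (3 * k)
  have f2 := Nat.factorial_ne_zero (2 * k)
  have f3 := Nat.factorial_ne_zero k
  rw [padicValNat.mul (mul_ne_zero (mul_ne_zero ha f1) f2) f3,
    padicValNat.mul (mul_ne_zero ha f1) f2, padicValNat.mul ha f1,
    val_fact p (3 * k) b (by omega) hb, val_fact p (2 * k) b (by omega) hb,
    val_fact p k b (by omega) hb, val_fact p (6 * k) b hx hb] at h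
  unfold fl
  rw [Finset.sum_sub_distrib, Finset.sum_sub_distrib, Finset.sum_sub_distrib]
  have h' : ((padicValNat p (a k) + ∑ i ∈ Finset.Ico 1 b, 3 * k / p ^ i +
      ∑ i ∈ Finset.Ico 1 b, 2 * k / p ^ i + ∑ i ∈ Finset.Ico 1 b, k / p ^ i : ℕ) : ℤ) =
      ((∑ i ∈ Finset.Ico 1 b, 6 * k / p ^ i : ℕ) : ℤ) := by rw [h]
  push_cast at h' ⊢
  linarith

lemma val_choose (p : ℕ) [hp : Fact p.Prime] (n b : ℕ) (hx : 6 * n < p ^ b) (hb : 0 < b) :
    (padicValNat p ((3 * n).choose n) : ℤ) = ∑ i ∈ Finset.Ico 1 b, gl (p ^ i) n := by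
  have h0 := Nat.choose_mul_factorial_mul_factorial (show n ≤ 3 * n by omega)
  rw [show 3 * n - n = 2 * n by omega] at h0
  have h := congrArg (padicValNat p) h0
  have ha : (3 * n).choose n ≠ 0 := (Nat.choose_pos (by omega)).ne'
  have f1 := Nat.factorial_ne_zero n
  have f2 := Nat.factorial_ne_zero (2 * n)
  rw [padicValNat.mul (mul_ne_zero ha f1) f2, padicValNat.mul ha f1,
    val_fact p (3 * n) b (by omega) hb, val_fact p (2 * n) b (by omega) hb,
    val_fact p n b (by omega) hb] at h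
  unfold gl
  rw [Finset.sum_sub_distrib, Finset.sum_sub_distrib]
  have h' : ((padicValNat p ((3 * n).choose n) + ∑ i ∈ Finset.Ico 1 b, n / p ^ i +
      ∑ i ∈ Finset.Ico 1 b, 2 * n / p ^ i : ℕ) : ℤ) =
      ((∑ i ∈ Finset.Ico 1 b, 3 * n / p ^ i : ℕ) : ℤ) := by rw [h]
  push_cast at h' ⊢
  linarith

lemma val_odd (p : ℕ) [hp : Fact p.Prime] (n b : ℕ) (hn : 1 ≤ n) (hx : 6 * n < p ^ b)
    (hb : 0 < b) :
    (padicValNat p (2 * n - 1) : ℤ) =
      ∑ i ∈ Finset.Ico 1 b, (if p ^ i ∣ 2 * n - 1 then 1 else 0 : ℤ) := by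
  obtain ⟨x, hx'⟩ : ∃ x, 2 * n - 1 = x + 1 := ⟨2 * n - 2, by omega⟩
  rw [hx']
  have h := congrArg (padicValNat p) (Nat.factorial_succ x)
  rw [padicValNat.mul (Nat.succ_ne_zero x) (Nat.factorial_ne_zero x),
    val_fact p (x + 1) b (by omega) hb, val_fact p x b (by omega) hb] at h
  have h2 : ∑ i ∈ Finset.Ico 1 b, (x + 1) / p ^ i =
      ∑ i ∈ Finset.Ico 1 b, (x / p ^ i + if p ^ i ∣ x + 1 then 1 else 0) :=
    Finset.sum_congr rfl fun i _ => Nat.succ_div
  rw [h2, Finset.sum_add_distrib] at h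
  have h3 : padicValNat p (x + 1) = ∑ i ∈ Finset.Ico 1 b, (if p ^ i ∣ x + 1 then 1 else 0) := by
    have h4 : x.succ = x + 1 := rfl
    rw [h4] at h
    omega
  rw [h3]
  push_cast
  rfl

/-- the termwise divisibility (Guo), odd primes -/
lemma term_val (p : ℕ) [hp : Fact p.Prime] (hp2 : p ≠ 2) (j k : ℕ) (hn : 1 ≤ j + k) :
    padicValNat p (2 * (j + k) - 1) + padicValNat p ((3 * (j + k)).choose (j + k)) ≤
      padicValNat p (a j) + padicValNat p (a k) := by
  have hp3 : 3 ≤ p := by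
    have := hp.out.two_le
    omega
  have hp1 : 1 < p := by omega
  set b := 6 * (j + k) with hb
  have hxb : 6 * (j + k) < p ^ b := Nat.lt_pow_self hp1
  have hb0 : 0 < b := by omega
  have e1 := val_a p j b (by omega) hb0
  have e2 := val_a p k b (by omega) hb0
  have e3 := val_choose p (j + k) b hxb hb0
  have e4 := val_odd p (j + k) b hn hxb hb0
  have key : ∑ i ∈ Finset.Ico 1 b, gl (p ^ i) (j + k) +
      ∑ i ∈ Finset.Ico 1 b, (if p ^ i ∣ 2 * (j + k) - 1 then 1 else 0 : ℤ) ≤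
      ∑ i ∈ Finset.Ico 1 b, fl (p ^ i) j + ∑ i ∈ Finset.Ico 1 b, fl (p ^ i) k := by
    rw [← Finset.sum_add_distrib, ← Finset.sum_add_distrib]
    by_cases h3 : p = 3
    · subst h3
      -- telescoping
      have tel : ∀ c : ℕ, 1 ≤ c →
          ∑ i ∈ Finset.Ico 1 (c + 1), (gl (3 ^ i) (j + k) +
            (if 3 ^ i ∣ 2 * (j + k) - 1 then 1 else 0 : ℤ)) ≤
          ∑ i ∈ Finset.Ico 1 (c + 1), (fl (3 ^ i) j + fl (3 ^ i) k) +
            (if Chi (3 ^ c) j k then 1 else 0) := by
        intro c hc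
        induction c, hc using Nat.le_induction with
        | base =>
          have := local_three j k hn
          simpa using this
        | succ c hc ih =>
          rw [Finset.sum_Ico_succ_top (show 1 ≤ c + 1 by omega),
            Finset.sum_Ico_succ_top (show 1 ≤ c + 1 by omega)]
          have hM : 3 ≤ 3 ^ c := by
            calc 3 = 3 ^ 1 := by norm_num
              _ ≤ 3 ^ c := Nat.pow_le_pow_right (by norm_num) hc
          have := local_step (3 ^ c) j k hM hn
          rw [show 3 * 3 ^ c = 3 ^ (c + 1) by ring] at this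
          linarith
      have h1 := tel (b - 1) (by omega)
      rw [show b - 1 + 1 = b by omega] at h1
      have hbig : 2 * (j + k) < 3 ^ (b - 1) := by
        have h5 : b - 1 < 3 ^ (b - 1) := Nat.lt_pow_self (by norm_num)
        omega
      have hchi : ¬ Chi (3 ^ (b - 1)) j k := by
        unfold Chi
        have hj : j % 3 ^ (b - 1) ≤ j := Nat.mod_le _ _
        have hk : k % 3 ^ (b - 1) ≤ k := Nat.mod_le _ _
        omega
      rw [if_neg hchi] at h1
      linarith
    · apply Finset.sum_le_sum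
      intro i hi
      rw [Finset.mem_Ico] at hi
      have hp5 : 5 ≤ p := by
        rcases Nat.lt_or_ge p 5 with h | h
        · exfalso
          have : p = 4 := by omega
          subst this
          exact absurd hp.out (by norm_num)
        · exact h
      have hm : 5 ≤ p ^ i := by
        calc 5 ≤ p := hp5
          _ = p ^ 1 := (pow_one p).symm
          _ ≤ p ^ i := Nat.pow_le_pow_right (by omega) hi.1
      exact local_five (p ^ i) j k hm hn
  have : (padicValNat p (2 * (j + k) - 1) : ℤ) + padicValNat p ((3 * (j + k)).choose (j + k)) ≤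
      padicValNat p (a j) + padicValNat p (a k) := by
    rw [e1, e2, e3, e4]
    linarith
  exact_mod_cast this

/-! ### the prime 2 -/

/-- `w x = x - v_2(x!)`, the sum of the binary digits of `x` -/
lemma v2_even (x : ℕ) : padicValNat 2 (2 * x)! = padicValNat 2 x ! + x :=
  padicValNat_factorial_mul x

lemma v2_odd (x : ℕ) : padicValNat 2 (2 * x + 1)! = padicValNat 2 x ! + x := by
  rw [padicValNat_factorial_mul_add x (by norm_num : 1 < 2), v2_even]

lemma v2_le (x : ℕ) : padicValNat 2 x ! + 1 ≤ x ∨ x = 0 := by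
  induction x using Nat.strong_induction_on with
  | _ x ih =>
    rcases Nat.even_or_odd' x with ⟨y, hy | hy⟩
    · subst hy
      rw [v2_even]
      rcases Nat.eq_zero_or_pos y with h | h
      · right; omega
      · have := ih y (by omega)
        omega
    · subst hy
      rw [v2_odd]
      rcases Nat.eq_zero_or_pos y with h | h
      · subst h; simp
      · have := ih y (by omega)
        omega

lemma v2_three (x : ℕ) : padicValNat 2 (3 * x)! + 2 ≤ 3 * x ∨ x = 0 := by
  induction x using Nat.strong_induction_on with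
  | _ x ih =>
    rcases Nat.even_or_odd' x with ⟨y, hy | hy⟩
    · subst hy
      rw [show 3 * (2 * y) = 2 * (3 * y) by ring, v2_even]
      rcases Nat.eq_zero_or_pos y with h | h
      · right; omega
      · have := ih y (by omega)
        omega
    · subst hy
      rw [show 3 * (2 * y + 1) = 2 * (3 * y + 1) + 1 by ring, v2_odd]
      have := v2_le (3 * y + 1)
      omega

lemma v2_a (k : ℕ) : padicValNat 2 (a k) + 2 * padicValNat 2 k ! = 2 * k := by
  have h := congrArg (padicValNat 2) (a_fact k)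
  have ha := (a_pos k).ne'
  have f1 := Nat.factorial_ne_zero (3 * k)
  have f2 := Nat.factorial_ne_zero (2 * k)
  have f3 := Nat.factorial_ne_zero k
  rw [padicValNat.mul (mul_ne_zero (mul_ne_zero ha f1) f2) f3,
    padicValNat.mul (mul_ne_zero ha f1) f2, padicValNat.mul ha f1,
    show 6 * k = 2 * (3 * k) by ring, v2_even, v2_even] at h
  omega

lemma v2_add (j k : ℕ) :
    padicValNat 2 j ! + padicValNat 2 k ! ≤ padicValNat 2 (j + k)! := by
  have h0 := Nat.add_choose_mul_factorial_mul_factorial j k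
  have h := congrArg (padicValNat 2) h0
  have ha : (j + k).choose k ≠ 0 := (Nat.choose_pos (by omega)).ne'
  rw [padicValNat.mul (mul_ne_zero ha (Nat.factorial_ne_zero j)) (Nat.factorial_ne_zero k),
    padicValNat.mul ha (Nat.factorial_ne_zero j)] at h
  omega

lemma v2_choose (n : ℕ) : padicValNat 2 ((3 * n).choose n) + n + 2 * padicValNat 2 n ! =
    padicValNat 2 (3 * n)! := by
  have h0 := Nat.choose_mul_factorial_mul_factorial (show n ≤ 3 * n by omega)
  rw [show 3 * n - n = 2 * n by omega] at h0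
  have h := congrArg (padicValNat 2) h0
  have ha : (3 * n).choose n ≠ 0 := (Nat.choose_pos (by omega)).ne'
  rw [padicValNat.mul (mul_ne_zero ha (Nat.factorial_ne_zero n)) (Nat.factorial_ne_zero _),
    padicValNat.mul ha (Nat.factorial_ne_zero n), v2_even] at h
  omega

/-- each term is divisible by `4 ^ w(n)` -/
lemma term_two (j k : ℕ) : 2 ^ (2 * (j + k - padicValNat 2 (j + k)!)) ∣ a j * a k := by
  have h1 := v2_a j
  have h2 := v2_a k
  have h3 := v2_add j k
  have ha := (a_pos j).ne'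
  have hb := (a_pos k).ne'
  rw [padicValNat_dvd_iff_le (mul_ne_zero ha hb), padicValNat.mul ha hb]
  omega

lemma sq_two (x : ℕ) (hx : 0 < x) :
    2 ^ (2 * (x + x - padicValNat 2 (x + x)!) + 1) ∣ a x * a x := by
  have h1 := v2_a x
  have ha := (a_pos x).ne'
  rw [padicValNat_dvd_iff_le (mul_ne_zero ha ha), padicValNat.mul ha ha,
    ← two_mul, v2_even]
  have := v2_le x
  omega

/-- the sum, in natural numbers -/
def S (n : ℕ) : ℕ := ∑ j ∈ Finset.range (n + 1), a j * a (n - j)

lemma S_pos (n : ℕ) : 0 < S n := by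
  unfold S
  apply Finset.sum_pos
  · intro j _
    exact Nat.mul_pos (a_pos _) (a_pos _)
  · exact ⟨0, by simp⟩

lemma S_two (n : ℕ) (hn : 1 ≤ n) : 2 ^ (2 * (n - padicValNat 2 n !) + 1) ∣ S n := by
  set w := n - padicValNat 2 n ! with hw
  have hterm : ∀ j ∈ Finset.range (n + 1), 2 ^ (2 * w) ∣ a j * a (n - j) := by
    intro j hj
    have hj' : j ≤ n := by simpa [Nat.lt_succ_iff] using hj
    have := term_two j (n - j)
    rwa [show j + (n - j) = n by omega] at this
  have e1 : S n = 2 ^ (2 * w) * ∑ j ∈ Finset.range (n + 1), (a j * a (n - j)) / 2 ^ (2 * w) := by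
    unfold S
    rw [Finset.mul_sum]
    exact Finset.sum_congr rfl fun j hj => (Nat.mul_div_cancel' (hterm j hj)).symm
  rw [e1, pow_succ]
  apply Nat.mul_dvd_mul_left
  rw [← ZMod.natCast_eq_zero_iff]
  push_cast
  apply Finset.sum_involution (fun j _ => n - j)
  · intro j hj
    have hj' : j ≤ n := by simpa [Nat.lt_succ_iff] using hj
    rw [show n - (n - j) = j by omega, mul_comm (a (n - j)) (a j)]
    rw [← two_mul]
    have : (2 : ZMod 2) = 0 := rfl
    rw [this, zero_mul]
  · intro j hj h0 h1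
    apply h0
    have hj' : j ≤ n := by simpa [Nat.lt_succ_iff] using hj
    have hn2 : n = j + j := by omega
    have h2 := sq_two j (by omega)
    rw [← hn2] at h2
    rw [h1]
    rw [ZMod.natCast_eq_zero_iff]
    obtain ⟨c, hc⟩ := h2
    rw [hc, pow_succ, mul_assoc, Nat.mul_div_cancel_left _ (by positivity)]
    exact Dvd.intro c rfl
  · intro j hj
    simp only [Finset.mem_range]
    omega
  · intro j hj
    have hj' : j ≤ n := by simpa [Nat.lt_succ_iff] using hj
    omega

theorem main (n : ℕ) (hn : 1 ≤ n) : 8 * (2 * n - 1) * (3 * n).choose n ∣ S n := by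
  have h1 : 2 * n - 1 ≠ 0 := by omega
  have h2 : (3 * n).choose n ≠ 0 := (Nat.choose_pos (by omega)).ne'
  rw [← Nat.factorization_prime_le_iff_dvd (mul_ne_zero (mul_ne_zero (by norm_num) h1) h2)
    (S_pos n).ne']
  intro p hp
  have : Fact p.Prime := ⟨hp⟩
  rw [Nat.factorization_def _ hp, Nat.factorization_def _ hp,
    padicValNat.mul (mul_ne_zero (by norm_num) h1) h2, padicValNat.mul (by norm_num) h1]
  by_cases h : p = 2
  · subst h
    have h3 : padicValNat 2 8 = 3 := by
      rw [show (8 : ℕ) = 2 ^ 3 by norm_num, padicValNat.prime_pow]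
    have h4 : padicValNat 2 (2 * n - 1) = 0 := padicValNat.eq_zero_of_not_dvd (by omega)
    rw [h3, h4]
    have h5 := (padicValNat_dvd_iff_le (S_pos n).ne').1 (S_two n hn)
    have h6 := v2_choose n
    have h7 := v2_three n
    have h8 := v2_le n
    omega
  · have h3 : padicValNat p 8 = 0 := by
      apply padicValNat.eq_zero_of_not_dvd
      intro hd
      apply h
      have : p ∣ 2 ^ 3 := by norm_num; exact hd
      exact (Nat.prime_dvd_prime_iff_eq hp Nat.prime_two).1 (hp.dvd_of_dvd_pow this)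
    rw [h3, zero_add, ← padicValNat_dvd_iff_le (S_pos n).ne']
    unfold S
    apply Finset.dvd_sum
    intro j hj
    have hj' : j ≤ n := by simpa [Nat.lt_succ_iff] using hj
    have h4 := term_val p h j (n - j) (by omega)
    rw [show j + (n - j) = n by omega] at h4
    rw [padicValNat_dvd_iff_le (mul_ne_zero (a_pos _).ne' (a_pos _).ne'),
      padicValNat.mul (a_pos _).ne' (a_pos _).ne']
    exact h4

end Pool.Agent.K3h12.CB
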